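import Mathlib

/-!
# MP_fd05bb_co, Q1: a nearfield design that is not a Galois field design

The nearfield is the Dickson nearfield of order `343 = 7^3` with kernel of order `7`; the subgroup
has order `9`.
-/

namespace Pool.Agent.Results.MP_fd05bb_co.Dickson343

/-- `(N, +, mul)` is a (finite, right distributive) nearfield with identity `one`. -/
structure IsNearfield (N : Type) [AddCommGroup N] (mul : N → N → N) (one : N) : Prop where
  one_ne_zero : one ≠ 0
  mul_ne_zero : ∀ x y, x ≠ 0 → y ≠ 0 → mul x y ≠ 0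
  mul_assoc : ∀ x y z, x ≠ 0 → y ≠ 0 → z ≠ 0 → mul (mul x y) z = mul x (mul y z)
  one_mul : ∀ x, x ≠ 0 → mul one x = x
  mul_one : ∀ x, x ≠ 0 → mul x one = x
  exists_inv : ∀ x, x ≠ 0 → ∃ y, y ≠ 0 ∧ mul y x = one ∧ mul x y = one
  mul_zero : ∀ x, mul x 0 = 0
  right_distrib : ∀ x y z, mul (x + y) z = mul x z + mul y z

/-- `H` is a subgroup of the multiplicative group of the nearfield. -/
structure IsMulSubgroup {N : Type} [AddCommGroup N] (mul : N → N → N) (one : N) (H : Set N) :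
    Prop where
  zero_notMem : (0 : N) ∉ H
  one_mem : one ∈ H
  mul_mem : ∀ x ∈ H, ∀ y ∈ H, mul x y ∈ H
  inv_mem : ∀ x ∈ H, ∃ y ∈ H, mul y x = one ∧ mul x y = one

/-- The block set of `D(N, Φ, G)`: the images of `G` under the maps `x ↦ x s + a`, `s ∈ S`. -/
def blocks {N : Type} [AddCommGroup N] (mul : N → N → N) (S G : Set N) : Set (Set N) :=
  {B | ∃ s ∈ S, ∃ a : N, B = (fun x => mul x s + a) '' G}

/-- Isomorphism of designs given by their block sets. -/
def DesignIso {N M : Type} (𝓑 : Set (Set N)) (𝓒 : Set (Set M)) : Prop :=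
  ∃ φ : N ≃ M, ∀ B : Set N, B ∈ 𝓑 ↔ φ '' B ∈ 𝓒

/-! ### The field with `343` elements, as `F_7[θ]/(θ³ - 2)` -/

instance fact7 : Fact (Nat.Prime 7) := ⟨by norm_num⟩

/-- coordinates with respect to `1, θ, θ²` -/
def K : Type := ZMod 7 × ZMod 7 × ZMod 7

namespace K

instance : DecidableEq K := inferInstanceAs (DecidableEq (ZMod 7 × ZMod 7 × ZMod 7))
instance : Fintype K := inferInstanceAs (Fintype (ZMod 7 × ZMod 7 × ZMod 7))
instance : AddCommGroup K := inferInstanceAs (AddCommGroup (ZMod 7 × ZMod 7 × ZMod 7))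

@[ext] lemma ext {x y : K} (h1 : x.1 = y.1) (h2 : x.2.1 = y.2.1) (h3 : x.2.2 = y.2.2) : x = y :=
  Prod.ext h1 (Prod.ext h2 h3)

instance : Mul K := ⟨fun x y => (x.1 * y.1 + 2 * (x.2.1 * y.2.2 + x.2.2 * y.2.1),
  x.1 * y.2.1 + x.2.1 * y.1 + 2 * (x.2.2 * y.2.2), x.1 * y.2.2 + x.2.1 * y.2.1 + x.2.2 * y.1)⟩

instance : One K := ⟨(1, 0, 0)⟩

lemma mul1 (x y : K) : (x * y).1 = x.1 * y.1 + 2 * (x.2.1 * y.2.2 + x.2.2 * y.2.1) := rfl
lemma mul2 (x y : K) : (x * y).2.1 = x.1 * y.2.1 + x.2.1 * y.1 + 2 * (x.2.2 * y.2.2) := rfl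
lemma mul3 (x y : K) : (x * y).2.2 = x.1 * y.2.2 + x.2.1 * y.2.1 + x.2.2 * y.1 := rfl
lemma one1 : (1 : K).1 = 1 := rfl
lemma one2 : (1 : K).2.1 = 0 := rfl
lemma one3 : (1 : K).2.2 = 0 := rfl
lemma zero1 : (0 : K).1 = 0 := rfl
lemma zero2 : (0 : K).2.1 = 0 := rfl
lemma zero3 : (0 : K).2.2 = 0 := rfl
lemma add1 (x y : K) : (x + y).1 = x.1 + y.1 := rfl
lemma add2 (x y : K) : (x + y).2.1 = x.2.1 + y.2.1 := rfl
lemma add3 (x y : K) : (x + y).2.2 = x.2.2 + y.2.2 := rfl

instance : CommRing K :=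
  { (inferInstance : AddCommGroup K), (inferInstance : Mul K), (inferInstance : One K) with
    left_distrib := by
      intro x y z
      ext <;> simp only [mul1, mul2, mul3, add1, add2, add3] <;> ring
    right_distrib := by
      intro x y z
      ext <;> simp only [mul1, mul2, mul3, add1, add2, add3] <;> ring
    zero_mul := by
      intro x
      ext <;> simp only [mul1, mul2, mul3, zero1, zero2, zero3] <;> ring
    mul_zero := by
      intro x
      ext <;> simp only [mul1, mul2, mul3, zero1, zero2, zero3] <;> ring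
    mul_assoc := by
      intro x y z
      ext <;> simp only [mul1, mul2, mul3] <;> ring
    one_mul := by
      intro x
      ext <;> simp only [mul1, mul2, mul3, one1, one2, one3] <;> ring
    mul_one := by
      intro x
      ext <;> simp only [mul1, mul2, mul3, one1, one2, one3] <;> ring
    mul_comm := by
      intro x y
      ext <;> simp only [mul1, mul2, mul3] <;> ring }

/-- the norm to `F_7` -/
def norm (x : K) : ZMod 7 := x.1 ^ 3 + 2 * x.2.1 ^ 3 + 4 * x.2.2 ^ 3 - 6 * (x.1 * x.2.1 * x.2.2)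

lemma norm_mul (x y : K) : norm (x * y) = norm x * norm y := by
  simp only [norm, mul1, mul2, mul3]
  ring

set_option maxRecDepth 100000 in
lemma norm_eq_zero : ∀ x : K, norm x = 0 → x = 0 := by decide +kernel

lemma norm_zero : norm 0 = 0 := by decide
lemma norm_one : norm 1 = 1 := by decide

/-- the automorphism `θ ↦ m θ` (for `m³ = 1`) -/
def tau (m : ZMod 7) (x : K) : K := (x.1, m * x.2.1, m ^ 2 * x.2.2)

lemma tau1 (m : ZMod 7) (x : K) : (tau m x).1 = x.1 := rfl
lemma tau2 (m : ZMod 7) (x : K) : (tau m x).2.1 = m * x.2.1 := rfl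
lemma tau3 (m : ZMod 7) (x : K) : (tau m x).2.2 = m ^ 2 * x.2.2 := rfl

lemma tau_add (m : ZMod 7) (x y : K) : tau m (x + y) = tau m x + tau m y := by
  ext <;> simp only [tau1, tau2, tau3, add1, add2, add3] <;> ring

lemma tau_mul {m : ZMod 7} (hm : m ^ 3 = 1) (x y : K) : tau m (x * y) = tau m x * tau m y := by
  ext <;> simp only [tau1, tau2, tau3, mul1, mul2, mul3]
  · linear_combination (-2 * (x.2.1 * y.2.2 + x.2.2 * y.2.1)) * hm
  · linear_combination (-2 * m * (x.2.2 * y.2.2)) * hm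
  · ring

lemma tau_tau (m n : ZMod 7) (x : K) : tau m (tau n x) = tau (n * m) x := by
  ext <;> simp only [tau1, tau2, tau3] <;> ring

lemma norm_tau {m : ZMod 7} (hm : m ^ 3 = 1) (x : K) : norm (tau m x) = norm x := by
  simp only [norm, tau1, tau2, tau3]
  linear_combination (2 * x.2.1 ^ 3 + 4 * x.2.2 ^ 3 * (m ^ 3 + 1)
    - 6 * (x.1 * x.2.1 * x.2.2)) * hm

lemma tau_one (x : K) : tau 1 x = x := by
  ext <;> simp only [tau1, tau2, tau3] <;> ring

lemma tau_K_one (m : ZMod 7) : tau m 1 = 1 := by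
  ext <;> simp only [tau1, tau2, tau3, one1, one2, one3] <;> ring

lemma cube_one : ∀ c : ZMod 7, c ≠ 0 → (c ^ 2) ^ 3 = 1 := by decide

instance : IsDomain K := by
  have h1 : NoZeroDivisors K := ⟨by
    intro x y h
    have := congrArg norm h
    rw [norm_mul, norm_zero, mul_eq_zero] at this
    rcases this with h | h
    · exact Or.inl (norm_eq_zero _ h)
    · exact Or.inr (norm_eq_zero _ h)⟩
  have h2 : Nontrivial K := ⟨0, 1, by decide⟩
  exact NoZeroDivisors.to_isDomain K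

noncomputable instance : Field K := Fintype.fieldOfDomain K

/-- the nearfield multiplication -/
def nmul (x s : K) : K := tau (norm s ^ 2) x * s

lemma norm_ne {x : K} (hx : x ≠ 0) : norm x ≠ 0 := fun h => hx (norm_eq_zero x h)

lemma norm_nmul {x s : K} (hs : s ≠ 0) : norm (nmul x s) = norm x * norm s := by
  unfold nmul
  rw [norm_mul, norm_tau (cube_one _ (norm_ne hs))]

lemma nmul_ne_zero {x s : K} (hx : x ≠ 0) (hs : s ≠ 0) : nmul x s ≠ 0 := by
  intro h
  have := norm_nmul (x := x) hs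
  rw [h, norm_zero] at this
  exact (mul_ne_zero (norm_ne hx) (norm_ne hs)) this.symm

theorem isNearfield : IsNearfield K nmul 1 := by
  refine ⟨by decide, fun x y hx hy => nmul_ne_zero hx hy, ?_, ?_, ?_, ?_, ?_, ?_⟩
  · intro x y z hx hy hz
    have e1 : nmul x (nmul y z) = tau (norm (nmul y z) ^ 2) x * nmul y z := rfl
    rw [e1, norm_nmul hz]
    unfold nmul
    rw [tau_mul (cube_one _ (norm_ne hz)), tau_tau, mul_pow, mul_assoc]
  · intro x hx
    unfold nmul
    rw [tau_K_one, one_mul]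
  · intro x hx
    unfold nmul
    rw [norm_one, one_pow, tau_one, mul_one]
  · intro x hx
    have hm := cube_one _ (norm_ne hx)
    -- `y = τ^{-1}(x^{-1})`
    refine ⟨tau ((norm x ^ 2) ^ 2) x⁻¹, ?_, ?_, ?_⟩
    · intro h
      have h1 : norm x⁻¹ = 0 := by
        rw [← norm_tau (m := (norm x ^ 2) ^ 2) (by rw [← pow_mul, mul_comm, pow_mul, hm, one_pow]), h,
          norm_zero]
      have h2 := norm_eq_zero _ h1
      exact hx (inv_eq_zero.1 h2)
    · unfold nmul
      rw [tau_tau]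
      have h3 : (norm x ^ 2) ^ 2 * norm x ^ 2 = 1 := by rw [← pow_succ, hm]
      rw [h3, tau_one, inv_mul_cancel₀ hx]
    · have hinv : norm x⁻¹ * norm x = 1 := by
        rw [← norm_mul, inv_mul_cancel₀ hx, norm_one]
      unfold nmul
      rw [norm_tau (by rw [← pow_mul, mul_comm, pow_mul, hm, one_pow])]
      have h4 : norm x⁻¹ ^ 2 = (norm x ^ 2) ^ 2 := by
        have h5 : (norm x⁻¹) ^ 2 * norm x ^ 2 = 1 := by rw [← mul_pow, hinv, one_pow]
        have h6 : (norm x ^ 2) ^ 2 * norm x ^ 2 = 1 := by rw [← pow_succ, hm]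
        have h7 : norm x ^ 2 ≠ 0 := pow_ne_zero _ (norm_ne hx)
        exact mul_right_cancel₀ h7 (h5.trans h6.symm)
      rw [h4, ← tau_mul (by rw [← pow_mul, mul_comm, pow_mul, hm, one_pow]), mul_inv_cancel₀ hx,
        tau_K_one]
  · intro x
    unfold nmul
    rw [mul_zero]
  · intro x y z
    unfold nmul
    rw [tau_add, add_mul]

/-- the subgroup of order `171` -/
def SS : Finset K := Finset.univ.filter fun x => norm x = 1 ∨ norm x = 2 ∨ norm x = 4

/-- a subgroup of order `9` of the nearfield -/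
def GG : Finset K := {(1, 0, 0), (2, 0, 0), (4, 0, 0), (4, 1, 1), (0, 6, 1), (1, 2, 2), (0, 5, 2),
  (0, 3, 4), (2, 4, 4)}

set_option maxRecDepth 100000 in
lemma card_SS : SS.card = 171 := by decide +kernel

lemma card_GG : GG.card = 9 := by decide +kernel

lemma GG_sub : GG ⊆ SS := by decide +kernel

lemma GG_mul : ∀ x ∈ GG, ∀ y ∈ GG, nmul x y ∈ GG := by decide +kernel

lemma GG_inv : ∀ x ∈ GG, ∃ y ∈ GG, nmul y x = 1 ∧ nmul x y = 1 := by decide +kernel

lemma mem_SS {x : K} : x ∈ SS ↔ norm x = 1 ∨ norm x = 2 ∨ norm x = 4 := by simp [SS]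

lemma ne_of_mem_SS {x : K} (hx : x ∈ SS) : x ≠ 0 := by
  rintro rfl
  rw [mem_SS, norm_zero] at hx
  revert hx
  decide

lemma closed_aux : ∀ a b : ZMod 7, (a = 1 ∨ a = 2 ∨ a = 4) → (b = 1 ∨ b = 2 ∨ b = 4) →
    (a * b = 1 ∨ a * b = 2 ∨ a * b = 4) := by decide

lemma inv_aux : ∀ a b : ZMod 7, (a = 1 ∨ a = 2 ∨ a = 4) → b * a = 1 →
    (b = 1 ∨ b = 2 ∨ b = 4) := by decide

theorem SS_isSub : IsMulSubgroup nmul 1 (SS : Set K) := by
  refine ⟨?_, ?_, ?_, ?_⟩
  · intro h
    exact ne_of_mem_SS (Finset.mem_coe.1 h) rfl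
  · rw [Finset.mem_coe, mem_SS, norm_one]
    exact Or.inl rfl
  · intro x hx y hy
    rw [Finset.mem_coe] at hx hy ⊢
    have hy0 := ne_of_mem_SS hy
    rw [mem_SS] at hx hy ⊢
    rw [norm_nmul hy0]
    exact closed_aux _ _ hx hy
  · intro x hx
    rw [Finset.mem_coe] at hx
    have hx0 := ne_of_mem_SS hx
    obtain ⟨y, hy0, h1, h2⟩ := isNearfield.exists_inv x hx0
    refine ⟨y, ?_, h1, h2⟩
    rw [Finset.mem_coe, mem_SS]
    rw [mem_SS] at hx
    refine inv_aux _ _ hx ?_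
    rw [← norm_nmul hx0, h1, norm_one]

theorem GG_isSub : IsMulSubgroup nmul 1 (GG : Set K) := by
  refine ⟨?_, ?_, ?_, ?_⟩
  · intro h
    exact ne_of_mem_SS (GG_sub (Finset.mem_coe.1 h)) rfl
  · rw [Finset.mem_coe]
    decide
  · intro x hx y hy
    exact GG_mul x hx y hy
  · intro x hx
    exact GG_inv x hx

/-! ### Two blocks with exactly three common points -/

def s1 : K := (0, 5, 4)
def a1 : K := (1, 3, 0)
def p1 : K := (1, 2, 2)
def p2 : K := (0, 5, 2)
def p3 : K := (2, 4, 4)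

lemma blocks_meet : p1 ∈ GG.image (fun x => nmul x s1 + a1) ∧ p2 ∈ GG.image (fun x => nmul x s1 + a1)
    ∧ p3 ∈ GG.image (fun x => nmul x s1 + a1) ∧ p1 ∈ GG ∧ p2 ∈ GG ∧ p3 ∈ GG ∧ p1 ≠ p2 ∧ p1 ≠ p3 ∧
    p2 ≠ p3 ∧ (1 : K) ∈ GG ∧ (1 : K) ∉ GG.image (fun x => nmul x s1 + a1) ∧ s1 ∈ SS := by
  decide +kernel

/-! ### The field design -/

/-- the ninth roots of unity -/
def L9 : List K := [(1, 0, 0), (2, 0, 0), (4, 0, 0), (0, 1, 0), (0, 2, 0), (0, 4, 0), (0, 0, 1),
  (0, 0, 2), (0, 0, 4)]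

set_option maxRecDepth 100000 in
lemma mem_L9 : ∀ x : K, (x * x) * (x * x) * ((x * x) * (x * x)) * x = 1 → x ∈ L9 := by
  decide +kernel

set_option maxRecDepth 100000 in
lemma L9_all : (L9.all fun x => L9.all fun y => L9.all fun x' => L9.all fun y' =>
    decide (x = 1) || decide (y = 1) || decide (x' = 1) || decide (y' = 1) || decide (x = x') ||
    decide (y = y') || !(decide ((1 - x) * (1 - y') = (1 - x') * (1 - y))) || decide (x = y))
    = true := by
  decide +kernel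

lemma L9_key : ∀ x ∈ L9, ∀ y ∈ L9, ∀ x' ∈ L9, ∀ y' ∈ L9, x ≠ 1 → y ≠ 1 → x' ≠ 1 → y' ≠ 1 →
    x ≠ x' → y ≠ y' → (1 - x) * (1 - y') = (1 - x') * (1 - y) → x = y := by
  intro x hx y hy x' hx' y' hy' h1 h2 h3 h4 h5 h6 h7
  have k1 := List.all_eq_true.1 L9_all x hx
  have k2 := List.all_eq_true.1 k1 y hy
  have k3 := List.all_eq_true.1 k2 x' hx'
  have k4 := List.all_eq_true.1 k3 y' hy'
  clear k1 k2 k3 hx hy hx' hy'
  simp only [Bool.or_eq_true, decide_eq_true_eq, Bool.not_eq_true',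
    decide_eq_false_iff_not] at k4
  rcases k4 with ((((((k | k) | k) | k) | k) | k) | k) | k
  · exact absurd k h1
  · exact absurd k h2
  · exact absurd k h3
  · exact absurd k h4
  · exact absurd k h5
  · exact absurd k h6
  · exact absurd h7 k
  · exact k

lemma key_K {x y x' y' : K} (hx : x ^ 9 = 1) (hy : y ^ 9 = 1) (hx' : x' ^ 9 = 1) (hy' : y' ^ 9 = 1)
    (nx : x ≠ 1) (ny : y ≠ 1) (nx' : x' ≠ 1) (ny' : y' ≠ 1) (nxx : x ≠ x') (nyy : y ≠ y')
    (h : (1 - x) * (1 - y') = (1 - x') * (1 - y)) : x = y := by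
  have m : ∀ {z : K}, z ^ 9 = 1 → z ∈ L9 := by
    intro z hz
    apply mem_L9
    rw [← hz]
    ring
  exact L9_key x (m hx) y (m hy) x' (m hx') y' (m hy') nx ny nx' ny' nxx nyy h

end K

section field

variable {F : Type} [Field F] [Finite F]

lemma pow_nine {G : Set F} (hG : IsMulSubgroup (· * ·) 1 G) (hc : G.ncard = 9) {x : F}
    (hx : x ∈ G) : x ^ 9 = 1 := by
  have hne : ∀ {z : F}, z ∈ G → z ≠ 0 := by
    rintro z hz rfl
    exact hG.zero_notMem hz
  -- multiplication by `x` permutes `G`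
  have hfin : G.Finite := Set.toFinite G
  let H : Finset F := hfin.toFinset
  have hH : H.card = 9 := by
    rw [← Set.ncard_eq_toFinset_card G hfin]; exact hc
  have hmem : ∀ z, z ∈ H ↔ z ∈ G := fun z => hfin.mem_toFinset
  have hperm : ∏ z ∈ H, (x * z) = ∏ z ∈ H, z := by
    apply Finset.prod_nbij (fun z => x * z)
    · intro z hz
      simp only [hmem] at *
      exact hG.mul_mem x hx z hz
    · intro z _ w _ h
      exact mul_left_cancel₀ (hne hx) h
    · intro z hz
      simp only [Finset.mem_coe, hmem] at hz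
      obtain ⟨y, hy, hyx, hxy⟩ := hG.inv_mem x hx
      refine ⟨y * z, ?_, ?_⟩
      · simp only [Finset.mem_coe, hmem]
        exact hG.mul_mem y hy z hz
      · change x * (y * z) = z
        rw [← mul_assoc]
        have : x * y = 1 := hxy
        rw [this, one_mul]
    · intro z _
      rfl
  rw [Finset.prod_mul_distrib, Finset.prod_const, hH] at hperm
  have hP : ∏ z ∈ H, z ≠ 0 := Finset.prod_ne_zero_iff.2 fun z hz => hne ((hmem z).1 hz)
  exact mul_right_cancel₀ hP (by rw [hperm, one_mul])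

/-- In the field design two distinct blocks have at most two common points. -/
lemma blocks_eq (e : F ≃+* K) {S G : Set F} (hS : IsMulSubgroup (· * ·) 1 S)
    (hG : IsMulSubgroup (· * ·) 1 G) (hc : G.ncard = 9) {B C : Set F}
    (hB : B ∈ blocks (· * ·) S G) (hC : C ∈ blocks (· * ·) S G) {p q r : F} (hpq : p ≠ q)
    (hpr : p ≠ r) (hqr : q ≠ r) (hpB : p ∈ B) (hqB : q ∈ B) (hrB : r ∈ B) (hpC : p ∈ C) (hqC : q ∈ C)
    (hrC : r ∈ C) : B = C := by
  obtain ⟨s, hs, a, rfl⟩ := hB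
  obtain ⟨t, ht, b, rfl⟩ := hC
  obtain ⟨x1, hx1, rfl⟩ := hpB
  obtain ⟨x2, hx2, rfl⟩ := hqB
  obtain ⟨x3, hx3, rfl⟩ := hrB
  obtain ⟨y1, hy1, e1⟩ := hpC
  obtain ⟨y2, hy2, e2⟩ := hqC
  obtain ⟨y3, hy3, e3⟩ := hrC
  simp only at e1 e2 e3 hpq hpr hqr
  have hs0 : s ≠ 0 := fun h => hS.zero_notMem (h ▸ hs)
  have ht0 : t ≠ 0 := fun h => hS.zero_notMem (h ▸ ht)
  have hG0 : ∀ {z : F}, z ∈ G → z ≠ 0 := fun hz h => hG.zero_notMem (h ▸ hz)
  have hx10 := hG0 hx1
  have hy10 := hG0 hy1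
  have x12 : x1 ≠ x2 := by rintro rfl; exact hpq rfl
  have x13 : x1 ≠ x3 := by rintro rfl; exact hpr rfl
  have x23 : x2 ≠ x3 := by rintro rfl; exact hqr rfl
  have y12 : y1 ≠ y2 := by rintro rfl; exact hpq (e1.symm.trans e2)
  have y13 : y1 ≠ y3 := by rintro rfl; exact hpr (e1.symm.trans e3)
  have y23 : y2 ≠ y3 := by rintro rfl; exact hqr (e2.symm.trans e3)
  have d1 : (x1 - x2) * s = (y1 - y2) * t := by linear_combination e2 - e1
  have d2 : (x1 - x3) * s = (y1 - y3) * t := by linear_combination e3 - e1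
  have hcross : (x1 - x2) * (y1 - y3) = (x1 - x3) * (y1 - y2) := by
    have h1 : (x1 - x2) * (y1 - y3) * (s * t) = (x1 - x3) * (y1 - y2) * (s * t) := by
      linear_combination (y1 - y3) * t * d1 - (y1 - y2) * t * d2
    exact mul_right_cancel₀ (mul_ne_zero hs0 ht0) h1
  -- normalise
  have hdiv : ∀ {u v : F}, u ∈ G → v ∈ G → (u / v) ^ 9 = 1 := by
    intro u v hu hv
    rw [div_pow, pow_nine hG hc hu, pow_nine hG hc hv, div_one]
  have hK : ∀ {u v : F}, u ∈ G → v ∈ G → (e (u / v)) ^ 9 = 1 := by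
    intro u v hu hv
    rw [← map_pow, hdiv hu hv, map_one]
  have hne1 : ∀ {u v : F}, v ≠ 0 → v ≠ u → e (u / v) ≠ 1 := by
    intro u v hv huv h
    rw [← map_one e] at h
    have := e.injective h
    rw [div_eq_one_iff_eq hv] at this
    exact huv this.symm
  have hneq : ∀ {u u' v : F}, v ≠ 0 → u ≠ u' → e (u / v) ≠ e (u' / v) := by
    intro u u' v hv huv h
    have := e.injective h
    rw [div_left_inj' hv] at this
    exact huv this
  have hX : e (x2 / x1) = e (y2 / y1) := by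
    apply K.key_K (hK hx2 hx1) (hK hy2 hy1) (hK hx3 hx1) (hK hy3 hy1) (hne1 hx10 x12)
      (hne1 hy10 y12) (hne1 hx10 x13) (hne1 hy10 y13) (hneq hx10 x23) (hneq hy10 y23)
    rw [← map_one e, ← map_sub, ← map_sub, ← map_sub, ← map_sub, ← map_mul, ← map_mul]
    congr 1
    field_simp
    linear_combination hcross
  have hX' := e.injective hX
  have hx2y2 : x2 * y1 = y2 * x1 := by
    rw [div_eq_div_iff hx10 hy10] at hX'
    exact hX'
  have hxs : x1 * s = y1 * t := by
    have h1 : (x1 - x2) * y1 = (y1 - y2) * x1 := by linear_combination -hx2y2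
    have h2 : (y1 - y2) * (x1 * s) = (y1 - y2) * (y1 * t) := by
      linear_combination y1 * d1 - s * h1
    exact mul_left_cancel₀ (sub_ne_zero.2 y12) h2
  have hab : a = b := by linear_combination -e1 - hxs
  subst hab
  -- the blocks coincide
  ext z
  constructor
  · rintro ⟨u, hu, rfl⟩
    obtain ⟨x1', hx1', hi1, hi2⟩ := hG.inv_mem x1 hx1
    have hi2' : x1 * x1' = 1 := hi2
    refine ⟨u * x1' * y1, hG.mul_mem _ (hG.mul_mem _ hu _ hx1') _ hy1, ?_⟩
    change u * x1' * y1 * t + a = u * s + a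
    linear_combination (-u * x1') * hxs + (u * s) * hi2'
  · rintro ⟨u, hu, rfl⟩
    obtain ⟨y1', hy1', hi1, hi2⟩ := hG.inv_mem y1 hy1
    have hi2' : y1 * y1' = 1 := hi2
    refine ⟨u * y1' * x1, hG.mul_mem _ (hG.mul_mem _ hu _ hy1') _ hx1, ?_⟩
    change u * y1' * x1 * s + a = u * t + a
    linear_combination (u * y1') * hxs + (u * t) * hi2'

end field

/-- **Negative answer to Q1** (the negated form): a nearfield of order `343` and a subgroup of order
`9` whose design is not isomorphic to the field design `D(343, 9)`. -/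
theorem result : ∃ (N : Type) (_ : AddCommGroup N) (_ : Finite N) (mul : N → N → N) (one : N)
    (S G : Set N), IsNearfield N mul one ∧ Nat.card N % 4 = 3 ∧
      IsMulSubgroup mul one S ∧ S.ncard = (Nat.card N - 1) / 2 ∧
      IsMulSubgroup mul one G ∧ G ⊆ S ∧ 1 < G.ncard ∧
      ∀ (F : Type) [Field F] [Finite F] (S' G' : Set F), Nat.card F = Nat.card N →
        IsMulSubgroup (· * ·) 1 S' → S'.ncard = (Nat.card F - 1) / 2 →
        IsMulSubgroup (· * ·) 1 G' → G' ⊆ S' → G'.ncard = G.ncard →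
        ¬ DesignIso (blocks mul S G) (blocks (· * ·) S' G') := by
  have hcard : Nat.card K = 343 := by
    rw [Nat.card_eq_fintype_card]
    change Fintype.card (ZMod 7 × ZMod 7 × ZMod 7) = 343
    simp [ZMod.card]
  refine ⟨K, inferInstance, inferInstance, K.nmul, 1, (K.SS : Set K), (K.GG : Set K),
    K.isNearfield, by rw [hcard], K.SS_isSub, ?_, K.GG_isSub, ?_, ?_, ?_⟩
  · rw [Set.ncard_coe_finset, K.card_SS, hcard]
  · exact_mod_cast K.GG_sub
  · rw [Set.ncard_coe_finset, K.card_GG]; norm_num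
  · intro F _ _ S' G' hF hS' _ hG' _ hG'c
    rintro ⟨φ, hφ⟩
    rw [Set.ncard_coe_finset, K.card_GG] at hG'c
    have := Fintype.ofFinite F
    have he : Nonempty (F ≃+* K) := by
      refine ⟨FiniteField.ringEquivOfCardEq ?_⟩
      rw [← Nat.card_eq_fintype_card, ← Nat.card_eq_fintype_card, hF]
    obtain ⟨e⟩ := he
    obtain ⟨m1, m2, m3, g1, g2, g3, n12, n13, n23, o1, o2, hs1⟩ := K.blocks_meet
    -- two blocks of the nearfield design
    have b1 : (K.GG : Set K) ∈ blocks K.nmul (K.SS : Set K) (K.GG : Set K) := by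
      refine ⟨1, K.SS_isSub.one_mem, 0, ?_⟩
      ext z
      constructor
      · intro hz
        refine ⟨z, hz, ?_⟩
        change K.nmul z 1 + 0 = z
        rw [add_zero, K.isNearfield.mul_one z (fun h => K.GG_isSub.zero_notMem (h ▸ hz))]
      · rintro ⟨u, hu, rfl⟩
        change K.nmul u 1 + 0 ∈ _
        rw [add_zero, K.isNearfield.mul_one u (fun h => K.GG_isSub.zero_notMem (h ▸ hu))]
        exact hu
    have b2 : ((fun x => K.nmul x K.s1 + K.a1) '' (K.GG : Set K)) ∈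
        blocks K.nmul (K.SS : Set K) (K.GG : Set K) :=
      ⟨K.s1, Finset.mem_coe.2 hs1, K.a1, rfl⟩
    have hmem : ∀ {z : K}, z ∈ K.GG.image (fun x => K.nmul x K.s1 + K.a1) →
        z ∈ ((fun x => K.nmul x K.s1 + K.a1) '' (K.GG : Set K)) := by
      intro z hz
      obtain ⟨u, hu, rfl⟩ := Finset.mem_image.1 hz
      exact ⟨u, hu, rfl⟩
    have himg := blocks_eq e hS' hG' hG'c ((hφ _).1 b1) ((hφ _).1 b2)
      (p := φ K.p1) (q := φ K.p2) (r := φ K.p3)
      (fun h => n12 (φ.injective h)) (fun h => n13 (φ.injective h)) (fun h => n23 (φ.injective h))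
      ⟨_, g1, rfl⟩ ⟨_, g2, rfl⟩ ⟨_, g3, rfl⟩ ⟨_, hmem m1, rfl⟩ ⟨_, hmem m2, rfl⟩ ⟨_, hmem m3, rfl⟩
    have heq := φ.injective.image_injective himg
    have h1 : (1 : K) ∈ ((fun x => K.nmul x K.s1 + K.a1) '' (K.GG : Set K)) := by
      rw [← heq]; exact o1
    obtain ⟨u, hu, hu'⟩ := h1
    exact o2 (Finset.mem_image.2 ⟨u, hu, hu'⟩)

end Pool.Agent.Results.MP_fd05bb_co.Dickson343
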